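import Pool.Agent.Helper85.LN2.Goals
import Pool.Agent.Helper40.LN.CERTG

/-! # LN2 RESP2: second certificates are respected -/

namespace Pool.Agent.Helper49.LN2

open Pool.Agent.Helper85.LN Pool.Agent.Helper85.LN2

section

variable {Q P : Type} [Group P] {R L Y : List (List (S Q))} {γ : Q → P}

/-- The normal subgroup generated by `L`. -/
def Lam (γ : Q → P) (L : List (List (S Q))) : Subgroup P :=
  Subgroup.normalClosure {x | ∃ s ∈ L, ev γ s = x}

instance : (Lam γ L).Normal := by unfold Lam; infer_instance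

lemma ev_mem_Lam {s : List (S Q)} (hs : s ∈ L) : ev γ s ∈ Lam γ L :=
  Subgroup.subset_normalClosure ⟨s, hs, rfl⟩

lemma Lam_le {C : Subgroup P} (h : ∀ s ∈ L, ∀ p : P, p * ev γ s * p⁻¹ ∈ C) : Lam γ L ≤ C := by
  unfold Lam Subgroup.normalClosure
  rw [Subgroup.closure_le]
  intro x hx
  rw [Group.mem_conjugatesOfSet_iff] at hx
  obtain ⟨a, ⟨s, hs, rfl⟩, hc⟩ := hx
  obtain ⟨p, rfl⟩ := isConj_iff.mp hc
  exact h s hs p

variable (hγ : ∀ u v, EqvS R L u v ↔ ev γ u = ev γ v) (hs : ∀ p, ∃ w, ev γ w = p)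

include hγ hs

open Pool.Agent.Helper40.LN in
lemma comm_L {s s' : List (S Q)} (h1 : s ∈ L) (h2 : s' ∈ L) (p : P) :
    ev γ s * (p * ev γ s' * p⁻¹) = (p * ev γ s' * p⁻¹) * ev γ s := by
  obtain ⟨h, rfl⟩ := hs p
  have e := (hγ _ _).mp (EqvS.kap (R := R) h1 h2 h)
  unfold kap at e
  simp only [ev_append, ev_iw, ev_nil] at e
  have : ev γ s * (ev γ h * ev γ s' * (ev γ h)⁻¹) * (ev γ s)⁻¹ *
      (ev γ h * ev γ s' * (ev γ h)⁻¹)⁻¹ = 1 := by
    rw [← e]
    group
  rw [mul_inv_eq_one, mul_inv_eq_iff_eq_mul] at this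
  exact this

lemma lam_comm_L {x : P} (hx : x ∈ Lam γ L) {s : List (S Q)} (h1 : s ∈ L) :
    ev γ s * x = x * ev γ s := by
  have h : Lam γ L ≤ Subgroup.centralizer {ev γ s} := by
    apply Lam_le
    intro s' h2 p
    rw [Subgroup.mem_centralizer_iff]
    intro y hy
    rw [Set.mem_singleton_iff.mp hy]
    exact comm_L hγ hs h1 h2 p
  exact Subgroup.mem_centralizer_iff.mp (h hx) _ rfl

lemma lam_comm {x y : P} (hx : x ∈ Lam γ L) (hy : y ∈ Lam γ L) : x * y = y * x := by
  have h : Lam γ L ≤ Subgroup.centralizer (Lam γ L : Set P) := by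
    apply Lam_le
    intro s h1 p
    rw [Subgroup.mem_centralizer_iff]
    intro z hz
    have h2 : p⁻¹ * z * p ∈ Lam γ L := by
      have := (inferInstance : (Lam γ L).Normal).conj_mem z hz p⁻¹
      rwa [inv_inv] at this
    have h3 := lam_comm_L hγ hs h2 h1
    calc z * (p * ev γ s * p⁻¹) = p * ((p⁻¹ * z * p) * ev γ s) * p⁻¹ := by group
      _ = p * (ev γ s * (p⁻¹ * z * p)) * p⁻¹ := by rw [h3]
      _ = p * ev γ s * p⁻¹ * z := by group
  exact Subgroup.mem_centralizer_iff.mp (h hy) _ hx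

open Pool.Agent.Helper40.LN in
omit hs in
lemma eqv_lam {u v : List (S Q)} (h : Eqv (R ++ L) u v) : ev γ u * (ev γ v)⁻¹ ∈ Lam γ L := by
  induction h with
  | rel x y h =>
    obtain ⟨p, r, t, hr, rfl, rfl⟩ := h
    have hr' : ev γ r = 1 ∨ r ∈ L := by
      rcases hr with hr | ⟨q, b, rfl⟩
      · rcases List.mem_append.mp hr with hr | hr
        · exact Or.inl ((hγ _ _).mp (EqvS.rel hr))
        · exact Or.inr hr
      · exact Or.inl ((hγ _ _).mp (EqvS.triv q b))
    rw [ev_append, ev_append, ev_append]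
    rcases hr' with hr' | hr'
    · rw [hr', one_mul, mul_inv_cancel]
      exact Subgroup.one_mem _
    · have e : ev γ p * ev γ t * (ev γ p * (ev γ r * ev γ t))⁻¹ =
          ev γ p * (ev γ r)⁻¹ * (ev γ p)⁻¹ := by group
      rw [e]
      exact (inferInstance : (Lam γ L).Normal).conj_mem _ (Subgroup.inv_mem _ (ev_mem_Lam hr')) _
  | refl x =>
    rw [mul_inv_cancel]
    exact Subgroup.one_mem _
  | symm x y _ ih =>
    have := Subgroup.inv_mem _ ih
    rwa [mul_inv_rev, inv_inv] at this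
  | trans x y z _ _ ih1 ih2 =>
    have := Subgroup.mul_mem _ ih1 ih2
    rwa [mul_assoc, inv_mul_cancel_left] at this

/-- The elements which are equal to elements of `Y` modulo `Λ`. -/
def Yb (γ : Q → P) (L Y : List (List (S Q))) (p : P) : Prop :=
  ∃ y ∈ Y, p * (ev γ y)⁻¹ ∈ Lam γ L

variable (hY : YCond R L Y)

include hY

open Pool.Agent.Helper40.LN in
omit hs in
lemma Yb_conj (w : List (S Q)) {p : P} (hp : Yb γ L Y p) :
    Yb γ L Y (ev γ w * p * (ev γ w)⁻¹) := by
  induction w with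
  | nil => simpa [ev_nil] using hp
  | cons s w ih =>
    obtain ⟨y, hy, hl⟩ := ih
    obtain ⟨y', hy', he⟩ := hY.1 y hy s.1 s.2
    refine ⟨y', hy', ?_⟩
    have h1 := eqv_lam hγ he
    have e0 : ev γ [(s.1, !s.2)] = (ev γ [s])⁻¹ := by
      have := ev_iw γ [s]
      rwa [iw_cons] at this
    have e1 : ev γ (s :: w) = ev γ [s] * ev γ w := by
      rw [← ev_append]; rfl
    rw [ev_append, ev_append, e0] at h1
    have h2 := (inferInstance : (Lam γ L).Normal).conj_mem _ hl (ev γ [s])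
    have h3 := Subgroup.mul_mem _ h2 h1
    rw [e1]
    have e2 : ev γ [s] * (ev γ w * p * (ev γ w)⁻¹ * (ev γ y)⁻¹) * (ev γ [s])⁻¹ *
        (ev γ [(s.1, s.2)] * (ev γ y * (ev γ [s])⁻¹) * (ev γ y')⁻¹) =
        ev γ [s] * ev γ w * p * (ev γ [s] * ev γ w)⁻¹ * (ev γ y')⁻¹ := by
      have : ev γ [(s.1, s.2)] = ev γ [s] := rfl
      rw [this]
      group
    rwa [e2] at h3

open Pool.Agent.Helper40.LN in
lemma y_comm_lam {y : List (S Q)} (hy : y ∈ Y) {x : P} (hx : x ∈ Lam γ L) :
    ev γ y * x = x * ev γ y := by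
  have h : Lam γ L ≤ Subgroup.centralizer {ev γ y} := by
    apply Lam_le
    intro s h1 p
    rw [Subgroup.mem_centralizer_iff]
    intro z hz
    rw [Set.mem_singleton_iff.mp hz]
    obtain ⟨w, hw⟩ := hs p⁻¹
    have h2 : Yb γ L Y (ev γ y) := ⟨y, hy, by rw [mul_inv_cancel]; exact Subgroup.one_mem _⟩
    obtain ⟨y', hy', hl⟩ := Yb_conj hγ hY w h2
    rw [hw, inv_inv] at hl
    have h3 := lam_comm_L hγ hs hl h1
    have h4 : ev γ y' * ev γ s = ev γ s * ev γ y' := by
      rw [← ev_append, ← ev_append]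
      exact (hγ _ _).mp (hY.2.2 y' hy' s h1)
    set l := p⁻¹ * ev γ y * p * (ev γ y')⁻¹ with hl'
    have e : p⁻¹ * ev γ y * p = l * ev γ y' := by rw [hl']; group
    have h5 : (p⁻¹ * ev γ y * p) * ev γ s = ev γ s * (p⁻¹ * ev γ y * p) := by
      rw [e, mul_assoc, h4, ← mul_assoc, ← h3, mul_assoc]
    calc ev γ y * (p * ev γ s * p⁻¹) = p * ((p⁻¹ * ev γ y * p) * ev γ s) * p⁻¹ := by group
      _ = p * (ev γ s * (p⁻¹ * ev γ y * p)) * p⁻¹ := by rw [h5]
      _ = p * ev γ s * p⁻¹ * ev γ y := by group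
  exact Subgroup.mem_centralizer_iff.mp (h hx) _ rfl

open Pool.Agent.Helper40.LN in
lemma Yb_comm {p q : P} (hp : Yb γ L Y p) (hq : Yb γ L Y q) : p * q = q * p := by
  obtain ⟨y, hy, hl⟩ := hp
  obtain ⟨y', hy', hl'⟩ := hq
  set l := p * (ev γ y)⁻¹ with h1
  set l' := q * (ev γ y')⁻¹ with h2
  have ep : p = l * ev γ y := by rw [h1]; group
  have eq : q = l' * ev γ y' := by rw [h2]; group
  have c1 := lam_comm hγ hs hl hl'
  have c2 := y_comm_lam hγ hs hY hy hl'
  have c3 := y_comm_lam hγ hs hY hy' hl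
  have c4 : ev γ y * ev γ y' = ev γ y' * ev γ y := by
    rw [← ev_append, ← ev_append]
    exact (hγ _ _).mp (hY.2.1 y hy y' hy')
  rw [ep, eq]
  calc l * ev γ y * (l' * ev γ y') = l * (ev γ y * l') * ev γ y' := by group
    _ = l * (l' * ev γ y) * ev γ y' := by rw [c2]
    _ = (l * l') * (ev γ y * ev γ y') := by group
    _ = (l' * l) * (ev γ y' * ev γ y) := by rw [c1, c4]
    _ = l' * (l * ev γ y') * ev γ y := by group
    _ = l' * (ev γ y' * l) * ev γ y := by rw [c3]
    _ = l' * ev γ y' * (l * ev γ y) := by group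

end

open Pool.Agent.Helper40.LN in
/-- The packet. -/
theorem resp2 : S_RESP2 := by
  intro hC Q Z R L Y W hW hY
  obtain ⟨P, _, γ, hγ, hs⟩ := hC Q (EqvS R L) (EqvS.cong R L)
  have fixL : ∀ s ∈ L, ∀ z, W.ltw s z = z := fun s h z => (hW.2 s h z).1
  have fixL' : ∀ s ∈ L, ∀ z, W.ltw (iw s) z = z := by
    intro s h z
    have := W.ltw_iw s z
    rwa [fixL s h z] at this
  have secY : ∀ s ∈ L, ∀ z, Yb γ L Y (ev γ (W.scw s z)) := by
    intro s h z
    obtain ⟨y, hy, he⟩ := (hW.2 s h z).2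
    exact ⟨y, hy, eqv_lam hγ he⟩
  intro u v h
  induction h with
  | rel x y h =>
    obtain ⟨p, r, t, hr, rfl, rfl⟩ := h
    intro z
    have hr' : ∀ z, W.ltw r z = z ∧ EqvS R L (W.scw r z) [] := by
      intro z
      rcases hr with hr | ⟨q, b, rfl⟩ | ⟨s, h1, s', h2, h, rfl⟩
      · exact hW.1 r hr z
      · have h1 : W.ltw [(q, b), (q, !b)] z = z := by
          have := W.lt_neg' (q, b) z
          simpa [WA.ltw] using this
        refine ⟨h1, ?_⟩
        have h2 := W.sc_neg (q, !b) z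
        simp only [Bool.not_not] at h2
        have h3 : W.scw [(q, b), (q, !b)] z = iw (W.sc (q, !b) z) ++ W.sc (q, !b) z := by
          simp only [WA.scw, WA.ltw, List.append_nil]
          rw [h2]
        rw [h3]
        exact (EqvS.cong R L).iw_mul _
      · have f1 := W.ltw_iw' h z
        set z' := W.ltw (iw h) z with hz'
        have g1 : W.scw (iw h) z = iw (W.scw h z') := by
          have := W.scw_iw h z'
          rwa [f1] at this
        have g2 : W.scw (iw s) z = iw (W.scw s z) := by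
          have := W.scw_iw s z
          rwa [fixL s h1 z] at this
        have g3 : W.scw (iw s') z' = iw (W.scw s' z') := by
          have := W.scw_iw s' z'
          rwa [fixL s' h2 z'] at this
        constructor
        · unfold kap
          simp only [W.ltw_append]
          rw [← hz', fixL' s' h2, f1, fixL' s h1, ← hz', fixL s' h2, f1, fixL s h1]
        · unfold kap
          simp only [W.scw_append, W.ltw_append]
          rw [← hz', fixL' s' h2, f1, fixL' s h1, ← hz', fixL s' h2, f1, g1, g2, g3]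
          rw [hγ]
          simp only [ev_append, ev_iw, ev_nil]
          have c := Yb_comm hγ hs hY (secY s h1 z) (Yb_conj hγ hY (W.scw h z') (secY s' h2 z'))
          set a := ev γ (W.scw s z)
          set g := ev γ (W.scw h z')
          set x' := ev γ (W.scw s' z')
          calc a * (g * (x' * (g⁻¹ * (a⁻¹ * (g * (x'⁻¹ * g⁻¹))))))
              = (a * (g * x' * g⁻¹)) * a⁻¹ * (g * x' * g⁻¹)⁻¹ := by group
            _ = ((g * x' * g⁻¹) * a) * a⁻¹ * (g * x' * g⁻¹)⁻¹ := by rw [c]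
            _ = 1 := by group
    constructor
    · rw [W.ltw_append, W.ltw_append, W.ltw_append, (hr' _).1]
    · rw [W.scw_append, W.scw_append, W.scw_append, W.ltw_append, (hr' _).1]
      have h4 := ((hr' (W.ltw t z)).2.symm.append_right (W.scw t z)).append_left
        (W.scw p (W.ltw t z))
      simpa using h4
  | refl x => exact fun z => ⟨rfl, EqvS.refl _⟩
  | symm x y _ ih => exact fun z => ⟨(ih z).1.symm, (ih z).2.symm⟩
  | trans x y w _ _ ih1 ih2 => exact fun z => ⟨(ih1 z).1.trans (ih2 z).1, (ih1 z).2.trans (ih2 z).2⟩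

end Pool.Agent.Helper49.LN2
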