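import Pool.Agent.Helper85.LN2.Fr
import Pool.Agent.Helper2.LN.FIDX

/-! Project LN2 (MP_d0c558_al): goal VF1, virtually free groups. -/

namespace Pool.Agent.Helper49.LN2

open Pool.Agent.Helper85.LN Pool.Agent.Helper85.LN2 Pool.Agent.Helper5.Gap Pool.Agent.Helper2.LN

/-- Finite sets of representatives of cosets. -/
theorem exists_reps {G : Type*} [Group G] {H K : Subgroup G} (h : H.relIndex K ≠ 0) :
    ∃ E : Finset G, (∀ e ∈ E, e ∈ K) ∧ ∀ g ∈ K, ∃ e ∈ E, e⁻¹ * g ∈ H := by
  classical
  have hfi : Finite (K ⧸ H.subgroupOf K) := by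
    apply Nat.finite_of_card_ne_zero
    exact h
  have := Fintype.ofFinite (K ⧸ H.subgroupOf K)
  refine ⟨(Finset.univ : Finset (K ⧸ H.subgroupOf K)).image fun q => ((Quotient.out q : K) : G), ?_, ?_⟩
  · intro e he
    obtain ⟨q, -, rfl⟩ := Finset.mem_image.1 he
    exact (Quotient.out q : K).2
  · intro g hg
    let k : K := ⟨g, hg⟩
    refine ⟨((Quotient.out (QuotientGroup.mk k : K ⧸ H.subgroupOf K) : K) : G),
      Finset.mem_image.2 ⟨_, Finset.mem_univ _, rfl⟩, ?_⟩
    have h1 : (QuotientGroup.mk (Quotient.out (QuotientGroup.mk k : K ⧸ H.subgroupOf K)) :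
        K ⧸ H.subgroupOf K) = QuotientGroup.mk k := Quotient.out_eq _
    have h2 := QuotientGroup.eq.1 h1
    rw [Subgroup.mem_subgroupOf] at h2
    simpa using h2

/-- A free group is cyclic or not commutative. -/
theorem free_cyclic_or (F : Type) [Group F] [IsFreeGroup F] :
    (∃ x y : F, x * y ≠ y * x) ∨ ∃ x : F, ∀ y : F, y ∈ Subgroup.zpowers x := by
  classical
  let e := IsFreeGroup.toFreeGroup F
  by_cases hs : Subsingleton (IsFreeGroup.Generators F)
  · right
    have hcl := FreeGroup.closure_range_of (IsFreeGroup.Generators F)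
    rcases isEmpty_or_nonempty (IsFreeGroup.Generators F) with hem | ⟨⟨s⟩⟩
    · refine ⟨1, fun y => ?_⟩
      have : e y = e 1 := Subsingleton.elim _ _
      have := e.injective this
      rw [this]
      exact Subgroup.mem_zpowers 1
    · refine ⟨e.symm (FreeGroup.of s), fun y => ?_⟩
      have h1 : e y ∈ Subgroup.closure (Set.range (FreeGroup.of : IsFreeGroup.Generators F → _)) := by
        rw [hcl]; trivial
      have h2 : Set.range (FreeGroup.of : IsFreeGroup.Generators F → _) = {FreeGroup.of s} := by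
        ext z
        constructor
        · rintro ⟨t, rfl⟩
          rw [Subsingleton.elim t s]
          rfl
        · rintro rfl
          exact ⟨s, rfl⟩
      rw [h2, ← Subgroup.zpowers_eq_closure] at h1
      obtain ⟨k, hk⟩ := Subgroup.mem_zpowers_iff.1 h1
      refine Subgroup.mem_zpowers_iff.2 ⟨k, ?_⟩
      apply e.injective
      rw [map_zpow, MulEquiv.apply_symm_apply, hk]
  · left
    rw [not_subsingleton_iff_nontrivial] at hs
    obtain ⟨s, t, hst⟩ := exists_pair_ne (IsFreeGroup.Generators F)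
    refine ⟨e.symm (FreeGroup.of s), e.symm (FreeGroup.of t), fun hc => ?_⟩
    rw [← map_mul, ← map_mul] at hc
    have hc' := e.symm.injective hc
    let φ : FreeGroup (IsFreeGroup.Generators F) →* Equiv.Perm (Fin 3) :=
      FreeGroup.lift fun u => if u = s then Equiv.swap 0 1 else Equiv.swap 1 2
    have h3 := congrArg φ hc'
    rw [map_mul, map_mul] at h3
    simp only [φ, FreeGroup.lift_apply_of, if_true, if_neg (Ne.symm hst)] at h3
    have h4 : (Equiv.swap (0 : Fin 3) 1 * Equiv.swap 1 2) ≠ Equiv.swap 1 2 * Equiv.swap 0 1 := by decide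
    exact h4 h3

/-- Subgroups of infinite index of cyclic groups are trivial. -/
theorem cyclic_sub {G : Type*} [Group G] (H : Subgroup G) (x : G)
    (hx : ∀ y : G, y ∈ Subgroup.zpowers x) (h : H.index = 0) : H = ⊥ := by
  by_contra hne
  obtain ⟨p', hp'⟩ := Subgroup.ne_bot_iff_exists_ne_one.1 hne
  obtain ⟨p, hp, hp1⟩ : ∃ p : G, p ∈ H ∧ p ≠ 1 :=
    ⟨(p' : G), p'.2, fun hh => hp' (Subtype.ext hh)⟩
  obtain ⟨n, rfl⟩ := Subgroup.mem_zpowers_iff.1 (hx p)
  have hn : n ≠ 0 := by
    rintro rfl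
    exact hp1 (zpow_zero x)
  have hfin : Finite (G ⧸ H) := by
    refine Finite.of_surjective (fun i : Fin n.natAbs => (QuotientGroup.mk (x ^ (i : ℕ)) : G ⧸ H)) ?_
    intro q
    obtain ⟨y, rfl⟩ := QuotientGroup.mk_surjective q
    obtain ⟨k, rfl⟩ := Subgroup.mem_zpowers_iff.1 (hx y)
    have h1 : 0 ≤ k % n := Int.emod_nonneg k hn
    have h2 : k % n < |n| := Int.emod_lt_abs k hn
    have h2' : (k % n).toNat < n.natAbs := by
      rw [Int.abs_eq_natAbs] at h2
      omega
    refine ⟨⟨(k % n).toNat, h2'⟩, ?_⟩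
    refine QuotientGroup.eq.2 ?_
    have h3 : ((k % n).toNat : ℤ) = k % n := Int.toNat_of_nonneg h1
    have h4 : (x ^ (k % n).toNat)⁻¹ * x ^ k = (x ^ n) ^ (k / n) := by
      rw [← zpow_natCast, h3, ← zpow_neg, ← zpow_add, ← zpow_mul]
      congr 1
      have := Int.emod_add_mul_ediv k n
      linarith
    change (x ^ (k % n).toNat)⁻¹ * x ^ k ∈ H
    rw [h4]
    exact H.zpow_mem hp _
  exact (Subgroup.index_ne_zero_of_finite (H := H)) h

/-- Transfer of `SepInj` from a subgroup. -/
theorem sepInj_sub {G : Type*} [Group G] (P P₀ : Subgroup G) (hP : P ≤ P₀) (s : P₀)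
    (h : SepInj ((P.subgroupOf P₀ : Subgroup P₀) : Set P₀) s) : SepInj (P : Set G) (s : G) := by
  have lift : ∀ u : List G, (∀ x ∈ u, x ∈ (P : Set G)) → ∃ u' : List P₀,
      (∀ x ∈ u', x ∈ ((P.subgroupOf P₀ : Subgroup P₀) : Set P₀)) ∧ u'.map P₀.subtype = u := by
    intro u hu
    induction u with
    | nil => exact ⟨[], by simp, rfl⟩
    | cons x u ih =>
      obtain ⟨u', h1, h2⟩ := ih fun y hy => hu y (List.mem_cons_of_mem _ hy)
      have hx := hu x List.mem_cons_self
      refine ⟨⟨x, hP hx⟩ :: u', ?_, by rw [List.map_cons, h2]; rfl⟩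
      intro y hy
      rcases List.mem_cons.1 hy with rfl | hy
      · exact Subgroup.mem_subgroupOf.2 hx
      · exact h1 y hy
  intro u v hu hv hlen hprod
  obtain ⟨u', hu1, rfl⟩ := lift u hu
  obtain ⟨v', hv1, rfl⟩ := lift v hv
  have hc : ∀ w : List P₀, (((w.map fun x => x * s).prod : P₀) : G) =
      ((w.map P₀.subtype).map fun x => x * (s : G)).prod := by
    intro w
    induction w with
    | nil => rfl
    | cons x w ih =>
      simp only [List.map_cons, List.prod_cons, Subgroup.coe_mul, Subgroup.subtype_apply]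
      rw [ih]
  rw [← hc, ← hc] at hprod
  rw [h u' v' hu1 hv1 (by simpa using hlen) (Subtype.ext hprod)]

section
variable {m d : ℕ} (A : Auto (Fin m) (Fin d))

theorem Lg_le (a : Fin d) : Lg A a ≤ A.G := by
  rintro x ⟨h, hh, hx⟩
  obtain ⟨w, rfl⟩ := (A.mem_G_iff h).1 hh
  have h0 : A.toWA.ltw w a = a := by
    have := hx []
    rw [A.val_apply_cons] at this
    exact (List.cons.inj this).1
  refine (A.mem_G_iff x).2 ⟨A.toWA.scw w a, ?_⟩
  ext1 u
  have := hx u
  rw [A.val_apply_cons] at this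
  exact (List.cons.inj this).2

/-- The stabilizer of a letter. -/
def Stb (a : Fin d) : Subgroup A.G := MulAction.stabilizer A.G ([a] : List (Fin d))

theorem mem_Stb (a : Fin d) (g : A.G) : g ∈ Stb A a ↔ (g : Equiv.Perm (List (Fin d))) [a] = [a] :=
  MulAction.mem_stabilizer_iff

theorem Stb_index (a : Fin d) : (Stb A a).index ≠ 0 := by
  have h1 := MulAction.index_stabilizer A.G ([a] : List (Fin d))
  have hsub : MulAction.orbit A.G ([a] : List (Fin d)) ⊆ Set.range fun b : Fin d => [b] := by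
    rintro _ ⟨g, rfl⟩
    obtain ⟨w, hw⟩ := (A.mem_G_iff g.1).1 g.2
    have h2 : (g : Equiv.Perm (List (Fin d))) [a] = [A.toWA.ltw w a] := by
      rw [← hw, A.val_apply_cons, A.val_apply_nil]
    exact ⟨A.toWA.ltw w a, h2.symm⟩
  have hfin := (Set.finite_range fun b : Fin d => [b]).subset hsub
  change (MulAction.stabilizer A.G ([a] : List (Fin d))).index ≠ 0
  rw [h1]
  exact (Set.ncard_pos hfin).2 ⟨_, MulAction.mem_orbit_self _⟩ |>.ne'

theorem G_fg : Group.FG A.G := by
  have : A.G.FG := by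
    rw [Subgroup.fg_iff]
    exact ⟨Set.range A.perm, rfl, Set.finite_range _⟩
  exact (Group.fg_iff_subgroup_fg A.G).2 this

theorem exists_sec (a : Fin d) (g : Stb A a) : ∃ x : Equiv.Perm (List (Fin d)),
    ∀ w, (g : A.G).1 (a :: w) = a :: x w := by
  obtain ⟨w, hw⟩ := (A.mem_G_iff g.1.1).1 g.1.2
  have h0 := (mem_Stb A a g.1).1 g.2
  rw [← hw, A.val_apply_cons] at h0
  have h1 := (List.cons.inj h0).1
  refine ⟨A.val (A.toWA.scw w a), fun u => ?_⟩
  rw [← hw, A.val_apply_cons, h1]

/-- The section homomorphism. -/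
noncomputable def secH (a : Fin d) : Stb A a →* Equiv.Perm (List (Fin d)) :=
  MonoidHom.mk' (fun g => (exists_sec A a g).choose) (by
    intro g g'
    ext1 w
    have h1 := (exists_sec A a (g * g')).choose_spec w
    have h2 := (exists_sec A a g).choose_spec
    have h3 := (exists_sec A a g').choose_spec w
    have h4 : ((g * g' : Stb A a) : A.G).1 (a :: w) = (g : A.G).1 ((g' : A.G).1 (a :: w)) := rfl
    rw [h3, h2] at h4
    exact (List.cons.inj (h1.symm.trans h4)).2)

theorem secH_spec (a : Fin d) (g : Stb A a) (w : List (Fin d)) :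
    (g : A.G).1 (a :: w) = a :: secH A a g w := (exists_sec A a g).choose_spec w

theorem secH_range (a : Fin d) : (secH A a).range = Lg A a := by
  ext x
  constructor
  · rintro ⟨g, rfl⟩
    exact ⟨g.1.1, g.1.2, fun w => secH_spec A a g w⟩
  · rintro ⟨h, hh, hx⟩
    have h1 : (⟨h, hh⟩ : A.G) ∈ Stb A a := by
      rw [mem_Stb]
      have := (Lg_le A a) ⟨h, hh, hx⟩
      obtain ⟨w, hw⟩ := (A.mem_G_iff x).1 this
      have h2 := hx []
      rw [← hw, A.val_apply_nil] at h2
      exact h2
    refine ⟨⟨⟨h, hh⟩, h1⟩, ?_⟩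
    ext1 w
    have h2 := secH_spec A a ⟨⟨h, hh⟩, h1⟩ w
    rw [hx w] at h2
    exact (List.cons.inj h2).2.symm

theorem secH_inj (hLN : A.LN) (a : Fin d) : Function.Injective (secH A a) := by
  rw [injective_iff_map_eq_one]
  intro g hg
  have h1 := hLN g.1.1 g.1.2 [a] fun w => by
    have := secH_spec A a g w
    rw [hg] at this
    exact this
  exact Subtype.ext (Subtype.ext h1)

theorem Lg_fg (a : Fin d) : (Lg A a).FG := by
  have h0 := G_fg A
  have : (Stb A a).FiniteIndex := ⟨Stb_index A a⟩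
  have h1 : Group.FG (Stb A a) := Subgroup.fg_of_index_ne_zero (Stb A a)
  rw [← secH_range]
  exact (Group.fg_iff_subgroup_fg _).1 (Group.fg_range (secH A a))

theorem finite_of (hLN : A.LN) (a : Fin d) (h : (Lg A a : Set (Equiv.Perm (List (Fin d)))).Finite) :
    Finite A.G := by
  have h1 : Finite (Stb A a) := by
    have : Finite (secH A a).range := by
      rw [secH_range]
      exact h
    exact Finite.of_injective (secH A a).rangeRestrict fun x y hxy =>
      secH_inj A hLN a (congrArg Subtype.val hxy)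
  apply Nat.finite_of_card_ne_zero
  rw [← (Stb A a).card_mul_index]
  exact mul_ne_zero (Nat.card_ne_zero.2 ⟨⟨1⟩, h1⟩) (Stb_index A a)

end

theorem vf1 : S_VF1 := by
  classical
  intro hM hGF m d A hLN hV a
  obtain ⟨P₀, hP₀, hidx, hfree⟩ := hV
  set L := Lg A a with hL
  set P := L ⊓ P₀ with hP
  have hPL : P.relIndex L ≠ 0 := by
    rw [hP, Subgroup.inf_relIndex_left]
    intro h0
    exact hidx (Subgroup.relIndex_eq_zero_of_le_right (Lg_le A a) h0)
  obtain ⟨E, hE1, hE2⟩ := exists_reps hPL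
  by_cases hc : P.relIndex P₀ = 0
  · -- `P` is finite
    have hPfin : (P : Set (Equiv.Perm (List (Fin d)))).Finite := by
      rcases free_cyclic_or P₀ with hnc | ⟨x, hx⟩
      · have hPfg : P.FG := by
          have h1 : Group.FG L := (Group.fg_iff_subgroup_fg L).2 (Lg_fg A a)
          have h2 : (P.subgroupOf L).FiniteIndex := ⟨hPL⟩
          have h3 : Group.FG (P.subgroupOf L) := Subgroup.fg_of_index_ne_zero _
          have h4 : Group.FG P :=
            Group.fg_of_surjective (f := (Subgroup.subgroupOfEquivOfLe (inf_le_left : P ≤ L)).toMonoidHom)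
              (Subgroup.subgroupOfEquivOfLe (inf_le_left : P ≤ L)).surjective
          exact (Group.fg_iff_subgroup_fg P).1 h4
        have hPfg' : (P.subgroupOf P₀).FG := by
          have h4 : Group.FG P := (Group.fg_iff_subgroup_fg P).2 hPfg
          have h5 : Group.FG (P.subgroupOf P₀) :=
            Group.fg_of_surjective
              (f := (Subgroup.subgroupOfEquivOfLe (inf_le_right : P ≤ P₀)).symm.toMonoidHom)
              (Subgroup.subgroupOfEquivOfLe (inf_le_right : P ≤ P₀)).symm.surjective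
          exact (Group.fg_iff_subgroup_fg _).1 h5
        obtain ⟨s, hs⟩ := hM P₀ (P.subgroupOf P₀) hPfg' hc hnc
        refine hGF m d A a P s hLN (inf_le_left.trans (Lg_le A a)) (hP₀ s.2)
          (fun x hx => hx.1) ⟨E, fun g hg => ?_⟩ (sepInj_sub P P₀ inf_le_right s hs)
        obtain ⟨e, he, heg⟩ := hE2 g hg
        exact ⟨e, he, Lg_le A a (hE1 e he), heg⟩
      · have h1 := cyclic_sub (P.subgroupOf P₀) x hx hc
        have h2 : P = ⊥ := by
          rw [Subgroup.subgroupOf_eq_bot] at h1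
          rw [disjoint_iff] at h1
          rw [← h1]
          exact (inf_eq_left.2 inf_le_right).symm
        rw [h2]
        exact Set.finite_singleton _
    have hLfin : (L : Set (Equiv.Perm (List (Fin d)))).Finite := by
      refine ((E.finite_toSet.mul hPfin)).subset fun g hg => ?_
      obtain ⟨e, he, heg⟩ := hE2 g hg
      exact ⟨e, he, e⁻¹ * g, heg, by simp⟩
    have hG := finite_of A hLN a hLfin
    have : (A.G : Set (Equiv.Perm (List (Fin d)))).Finite := hG
    refine ⟨this.toFinset, fun g hg => ⟨g, this.mem_toFinset.2 hg, hg, 1, A.G.one_mem, fun w => ?_⟩⟩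
    simp
  · have hPG : P.relIndex A.G ≠ 0 := Subgroup.relIndex_ne_zero_trans hc hidx
    have hLG : L.relIndex A.G ≠ 0 := fun h0 =>
      hPG (Subgroup.relIndex_eq_zero_of_le_left inf_le_left h0)
    obtain ⟨E', hE1', hE2'⟩ := exists_reps hLG
    refine ⟨E', fun g hg => ?_⟩
    obtain ⟨e, he, heg⟩ := hE2' g hg
    obtain ⟨h, hh, hw⟩ := heg
    exact ⟨e, he, hE1' e he, h, hh, hw⟩

end Pool.Agent.Helper49.LN2
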